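import Pool.Agent.K1H68.TD.Lab

/-!
# Small first deviation from the parity
-/

set_option autoImplicit false
set_option linter.unusedSectionVars false

namespace Pool.Agent.K1H68.TD

open Finset Pool.Agent.H630R2.LR

theorem PP.empty {X Y : Type} (F : X → Y → Bool) (A : Set X) (B : Set Y) (c : ℕ)
    (h : ∀ x ∈ A, ∀ y ∈ B, False) : PP F A B c :=
  ⟨fun _ _ => false, (Proto.const _ false fun _ _ => rfl).mono (Nat.zero_le _),
    fun x hx y hy => (h x hx y hy).elim⟩

namespace RT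

variable {V : Type} (T : RT V) (h : ℕ)

/-- the vertices whose projection to the core lies on the path to `B`, at a depth in `[lo, hi]` -/
def Str (B : V) (lo hi : ℕ) : Set V :=
  {x | T.pj h x = T.anc B (T.pd h x) ∧ lo ≤ T.pd h x ∧ T.pd h x ≤ hi}

variable {T h}

theorem str_mono {B : V} {lo lo' hi hi' : ℕ} (h1 : lo' ≤ lo) (h2 : hi ≤ hi') :
    T.Str h B lo hi ⊆ T.Str h B lo' hi' := by
  rintro x ⟨a1, a2, a3⟩
  exact ⟨a1, h1.trans a2, a3.trans h2⟩

theorem anc_mem_str (hC : T.Cor h T.root) {B : V} (hB : T.Cor h B) {lo hi k : ℕ} (h1 : lo ≤ k)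
    (h2 : k ≤ hi) (h3 : k ≤ T.dep B) : T.anc B k ∈ T.Str h B lo hi ∧ T.pd h (T.anc B k) = k := by
  have h4 : T.pd h (T.anc B k) = k := by
    rw [pd_anc hC h3, pd_of_cor hC hB, min_eq_right h3]
  refine ⟨⟨?_, by omega, by omega⟩, h4⟩
  rw [pj_of_cor hC (hB.up (T.sub_anc h3)), h4]

theorem anc_mem_str' (hC : T.Cor h T.root) {B x : V} {lo hi k : ℕ} (hx : x ∈ T.Str h B lo hi)
    (h1 : T.pd h x ≤ k) (h2 : k ≤ T.dep x) : T.anc x k ∈ T.Str h B lo hi ∧
      T.pd h (T.anc x k) = T.pd h x := by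
  have h4 : T.pd h (T.anc x k) = T.pd h x := by
    rw [pd_anc hC h2, min_eq_left h1]
  obtain ⟨a1, a2, a3⟩ := hx
  refine ⟨⟨?_, by omega, by omega⟩, h4⟩
  rw [pj_anc hC h2 h1, h4, a1]

theorem conn_dep (hC : T.Cor h T.root) {B : V} (hB : T.Cor h B) {lo hi : ℕ} (hhi : hi ≤ T.dep B) :
    Conn (T.Str h B lo hi) (fun x => (T.dep x : ℤ)) := by
  intro x hx x' hx' u h1 h2
  simp only at h1 h2
  have b1 := pd_le (T := T) (h := h) x
  obtain ⟨n, rfl⟩ := Int.eq_ofNat_of_zero_le (show 0 ≤ u by omega)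
  have a1 := hx.2
  have a2 := hx'.2
  by_cases hn : n ≤ hi
  · refine ⟨T.anc B n, (anc_mem_str hC hB (by omega) hn (by omega)).1, ?_⟩
    simp only
    rw [T.dep_anc (by omega)]
  · refine ⟨T.anc x' n, (anc_mem_str' hC hx' (by omega) (by omega)).1, ?_⟩
    simp only
    rw [T.dep_anc (by omega)]

theorem conn_sub (hC : T.Cor h T.root) {B : V} (hB : T.Cor h B) {lo hi : ℕ} (hhi : hi ≤ T.dep B) :
    Conn (T.Str h B lo hi) (fun x => (T.dep x : ℤ) - 2 * (T.pd h x : ℤ)) := by
  intro x hx x' hx' u h1 h2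
  simp only at h1 h2
  have b1 := pd_le (T := T) (h := h) x
  have b2 := pd_le (T := T) (h := h) x'
  have a1 := hx.2
  have a2 := hx'.2
  by_cases hu : u ≤ -(lo : ℤ)
  · obtain ⟨n, hn⟩ := Int.eq_ofNat_of_zero_le (show 0 ≤ -u by omega)
    obtain ⟨c1, c2⟩ := anc_mem_str hC hB (lo := lo) (hi := hi) (k := n) (by omega) (by omega)
      (by omega)
    refine ⟨T.anc B n, c1, ?_⟩
    simp only
    rw [T.dep_anc (by omega), c2]
    omega
  · obtain ⟨n, hn⟩ := Int.eq_ofNat_of_zero_le (show 0 ≤ u + 2 * (T.pd h x' : ℤ) by omega)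
    obtain ⟨c1, c2⟩ := anc_mem_str' hC hx' (k := n) (by omega) (by omega)
    refine ⟨T.anc x' n, c1, ?_⟩
    simp only
    rw [T.dep_anc (by omega), c2]
    omega

section

variable (hC : T.Cor h T.root) (f : ℕ → Bool) (t : ℕ) (h2 : 2 * h ≤ t)
  (hf : ∀ s s' : ℕ, s ≤ t → s' ≤ t → s % 2 = s' % 2 → f s = f s')

include hC h2 hf

theorem val {b b' : V} {lo lo' hi hi' : ℕ} (hb : hi ≤ T.dep b) (hb' : hi' ≤ T.dep b') {x y : V}
    (hx : x ∈ T.Str h b lo hi) (hy : y ∈ T.Str h b' lo' hi') :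
    f (T.dd x y) = f (T.dep x + T.dep y - 2 * min (T.mt b b') (min (T.pd h x) (T.pd h y))) := by
  rw [dd_core hC f t h2 hf, hx.1, hy.1, T.mt_anc (hx.2.2.trans hb) (hy.2.2.trans hb')]

/-- one chain, both on the chain -/
theorem piece_chain [Fintype V] {B : V} (hB : T.Cor h B) :
    PP (fun x y => f (T.dd x y)) {x | x ∈ T.Str h B 0 (T.dep B) ∧ T.dep x = T.pd h x}
      {y | y ∈ T.Str h B 0 (T.dep B) ∧ T.dep y = T.pd h y}
      (hcost (comm (fun x y => f (T.dd x y))).rank) := by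
  have hconn : Conn {x | x ∈ T.Str h B 0 (T.dep B) ∧ T.dep x = T.pd h x}
      (fun x => (T.dep x : ℤ)) := by
    intro x hx x' hx' u e1 e2
    simp only at e1 e2
    obtain ⟨n, rfl⟩ := Int.eq_ofNat_of_zero_le (show 0 ≤ u by omega)
    have a2 := hx'.1.2
    have a3 := hx'.2
    obtain ⟨c1, c2⟩ := anc_mem_str hC hB (lo := 0) (hi := T.dep B) (k := n) (by omega) (by omega)
      (by omega)
    refine ⟨T.anc B n, ⟨c1, ?_⟩, ?_⟩
    · rw [c2, T.dep_anc (by omega)]
    · simp only
      rw [T.dep_anc (by omega)]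
  refine PP.hankel _ _ _ (fun x => (T.dep x : ℤ)) (fun y => -(T.dep y : ℤ))
    (fun s => f s.natAbs) hconn ?_ ?_
  · intro y hy y' hy' u e1 e2
    obtain ⟨x'', e3, e4⟩ := hconn y' hy' y hy (-u) (by simp only at e1 e2 ⊢; omega)
      (by simp only at e1 e2 ⊢; omega)
    refine ⟨x'', e3, ?_⟩
    simp only at e4 ⊢
    omega
  · rintro x ⟨hx, hx'⟩ y ⟨hy, hy'⟩
    rw [val hC f t h2 hf le_rfl le_rfl hx hy, T.mt_self]
    congr 1
    have := hx.2
    have := hy.2
    omega

/-- one chain, a leg on the side of Alice, at a known place -/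
theorem piece_leg [Fintype V] {B : V} (hB : T.Cor h B) (k : ℕ) (hk : k ≤ T.dep B) :
    PP (fun x y => f (T.dd x y)) (T.Str h B k k) (T.Str h B 0 (T.dep B))
      (hcost (comm (fun x y => f (T.dd x y))).rank + 1) := by
  refine PP.ifY (fun y => k ≤ T.pd h y) ?_ ?_
  · have hp : PP (fun x y => f (T.dd x y)) (T.Str h B k k) (T.Str h B k (T.dep B))
      (hcost (comm (fun x y => f (T.dd x y))).rank) := by
      refine PP.hankel _ _ _ (fun x => (T.dep x : ℤ)) (fun x => (T.dep x : ℤ))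
        (fun s => f (s - 2 * k).toNat) (conn_dep hC hB hk) (conn_dep hC hB le_rfl) ?_
      intro x hx y hy
      rw [val hC f t h2 hf hk le_rfl hx hy, T.mt_self]
      congr 1
      have a1 := hx.2
      have a2 := hy.2
      have b1 := pd_le (T := T) (h := h) x
      have b2 := pd_le (T := T) (h := h) y
      omega
    refine hp.subset subset_rfl ?_
    rintro y ⟨hy, hy'⟩
    exact ⟨hy.1, hy', hy.2.2⟩
  · rcases Nat.eq_zero_or_pos k with hk0 | hk0
    · apply PP.empty
      rintro x _ y ⟨_, hy⟩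
      exact hy (by omega)
    have hp : PP (fun x y => f (T.dd x y)) (T.Str h B k k) (T.Str h B 0 (k - 1))
      (hcost (comm (fun x y => f (T.dd x y))).rank) := by
      refine PP.hankel _ _ _ (fun x => (T.dep x : ℤ))
        (fun x => (T.dep x : ℤ) - 2 * (T.pd h x : ℤ))
        (fun s => f s.toNat) (conn_dep hC hB hk) (conn_sub hC hB (by omega)) ?_
      intro x hx y hy
      rw [val hC f t h2 hf hk (by omega) hx hy, T.mt_self]
      congr 1
      have a1 := hx.2
      have a2 := hy.2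
      have b1 := pd_le (T := T) (h := h) x
      have b2 := pd_le (T := T) (h := h) y
      omega
    refine hp.subset subset_rfl ?_
    rintro y ⟨hy, hy'⟩
    exact ⟨hy.1, Nat.zero_le _, by omega⟩

end

/-- there are few legs on a chain -/
theorem leg_card [Fintype V] (hC : T.Cor h T.root) (f : ℕ → Bool) (t : ℕ) (ht : 1 ≤ t)
    (hf : ∀ s s' : ℕ, s ≤ t → s' ≤ t → s % 2 = s' % 2 → f s = f s')
    (hft : f (t + 1) ≠ f (t - 1)) {B : V} (hB : T.Cor h B) (K : Finset ℕ)
    (hK : ∀ k ∈ K, t ≤ k ∧ k ≤ T.dep B ∧ ∃ x, x ∈ T.Str h B k k ∧ T.dep x ≠ T.pd h x) :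
    K.card ≤ (comm (fun x y => f (T.dd x y))).rank := by
  classical
  have hx : ∀ k, ∃ x, k ∈ K → T.dep x = k + 1 ∧ T.mt x B = k := by
    intro k
    by_cases hk : k ∈ K
    · obtain ⟨h1, h2, x, ⟨hx1, hx2⟩, hxne⟩ := hK k hk
      have h3 := pd_le (T := T) (h := h) x
      have h4 : T.pd h x = k := by omega
      rw [h4] at hx1 hx2 hxne
      have h5 : k + 1 ≤ T.dep x := by omega
      refine ⟨T.anc x (k + 1), fun _ => ⟨T.dep_anc h5, ?_⟩⟩
      rw [T.mt_anc_left h5]
      have h6 : k ≤ T.mt x B := by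
        rw [T.le_mt]
        refine ⟨by omega, h2, ?_⟩
        rw [← hx1]
        unfold pj
        rw [h4]
      have h7 : ¬ k + 1 ≤ T.mt x B := by
        intro h8
        rw [T.le_mt] at h8
        have h9 : k + 1 ≤ T.pd h x := by
          rw [le_pd hC]
          refine ⟨h5, ?_⟩
          rw [h8.2.2]
          exact hB.up (T.sub_anc h8.2.1)
        omega
      omega
    · exact ⟨B, fun h => absurd h hk⟩
  choose x hx using hx
  have key : ∀ k ∈ K, ∀ j, j ≤ T.dep B → T.dd (x k) (T.anc B j) = k + 1 + j - 2 * min k j ∧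
      T.dd (T.anc B (k - 1)) (T.anc B j) = (k - 1) + j - 2 * min (k - 1) j := by
    intro k hk j hj
    obtain ⟨h1, h2, -⟩ := hK k hk
    obtain ⟨h3, h4⟩ := hx k hk
    have h5 : T.mt (x k) (T.anc B j) = min k j := by
      rw [T.mt_comm, T.mt_anc_left hj, T.mt_comm, h4]
    have h6 : T.mt (T.anc B (k - 1)) (T.anc B j) = min (k - 1) j := by
      rw [T.mt_anc (by omega) hj, T.mt_self]
      omega
    constructor
    · unfold dd
      rw [h5, h3, T.dep_anc hj]
    · unfold dd
      rw [h6, T.dep_anc hj, T.dep_anc (by omega)]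
  refine card_le_rank _ K x (fun k => T.anc B (k - 1)) (fun k => T.anc B (k - t))
    (fun k => -(k : ℤ)) ?_ ?_
  · intro k hk
    obtain ⟨h1, h2, -⟩ := hK k hk
    obtain ⟨e1, e2⟩ := key k hk (k - t) (by omega)
    rw [e1, e2, show k + 1 + (k - t) - 2 * min k (k - t) = t + 1 by omega,
      show k - 1 + (k - t) - 2 * min (k - 1) (k - t) = t - 1 by omega]
    exact hft
  · intro k hk k2 hk2 hne hρ
    obtain ⟨h1, h2, -⟩ := hK k hk
    obtain ⟨h12, h22, -⟩ := hK k2 hk2
    obtain ⟨e1, e2⟩ := key k hk (k2 - t) (by omega)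
    rw [e1, e2]
    by_cases hc : k2 - t ≤ k - 1
    · apply hf <;> omega
    · congr 1
      omega

section

variable [Fintype V] (hC : T.Cor h T.root) (f : ℕ → Bool) (t : ℕ) (ht : 1 ≤ t) (hh : h = t / 2)
  (hf : ∀ s s' : ℕ, s ≤ t → s' ≤ t → s % 2 = s' % 2 → f s = f s')
  (hft : f (t + 1) ≠ f (t - 1)) (htr : t ≤ (comm (fun x y => f (T.dd x y))).rank)

include hC ht hh hf hft htr

/-- legs -/
theorem piece_legs {B : V} (hB : T.Cor h B) :
    PP (fun x y => f (T.dd x y)) {x | x ∈ T.Str h B 0 (T.dep B) ∧ ¬ T.dep x = T.pd h x}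
      (T.Str h B 0 (T.dep B))
      (hcost (comm (fun x y => f (T.dd x y))).rank + 1 +
        Nat.clog 2 (2 * (comm (fun x y => f (T.dd x y))).rank)) := by
  classical
  let K : Finset ℕ := (Finset.Icc t (T.dep B)).filter
    (fun k => ∃ x, x ∈ T.Str h B k k ∧ T.dep x ≠ T.pd h x)
  have hK : K.card ≤ (comm (fun x y => f (T.dd x y))).rank := by
    refine leg_card hC f t ht hf hft hB K ?_
    intro k hk
    rw [Finset.mem_filter, Finset.mem_Icc] at hk
    exact ⟨hk.1.1, hk.1.2, hk.2⟩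
  refine PP.splitX (Finset.range t ∪ K) (fun x => T.pd h x) ?_ ?_ ?_
  · rintro x ⟨hx1, hx2⟩
    rw [Finset.mem_union, Finset.mem_range]
    by_cases hlt : T.pd h x < t
    · exact Or.inl hlt
    · right
      rw [Finset.mem_filter, Finset.mem_Icc]
      exact ⟨⟨by omega, hx1.2.2⟩, x, ⟨hx1.1, le_rfl, le_rfl⟩, hx2⟩
  · have h1 := Finset.card_union_le (Finset.range t) K
    rw [Finset.card_range] at h1
    exact (show _ ≤ 2 * (comm (fun x y => f (T.dd x y))).rank by omega).trans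
      (Nat.le_pow_clog (by norm_num) _)
  · intro k _
    by_cases hk : k ≤ T.dep B
    · refine (piece_leg hC f t (by omega) hf hB k hk).subset ?_ subset_rfl
      rintro x ⟨⟨hx1, _⟩, hx3⟩
      exact ⟨hx1.1, by omega, by omega⟩
    · apply PP.empty
      rintro x ⟨⟨hx1, _⟩, hx3⟩ y _
      have := hx1.2
      omega

/-- one chain -/
theorem piece_one {B : V} (hB : T.Cor h B) :
    PP (fun x y => f (T.dd x y)) (T.Str h B 0 (T.dep B)) (T.Str h B 0 (T.dep B))
      (hcost (comm (fun x y => f (T.dd x y))).rank + 1 +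
        Nat.clog 2 (2 * (comm (fun x y => f (T.dd x y))).rank) + 2) := by
  have hlegs := piece_legs hC f t ht hh hf hft htr hB
  refine PP.ifX (fun x => T.dep x = T.pd h x) (PP.ifY (fun y => T.dep y = T.pd h y) ?_ ?_) ?_
  · exact (piece_chain hC f t (by omega) hf hB).mono (by omega)
  · have h1 := hlegs.swap
    have h3 : (fun (y x : V) => f (T.dd x y)) = fun x y => f (T.dd x y) := by
      funext y x
      rw [T.dd_comm]
    rw [h3] at h1
    exact h1.subset (fun x hx => hx.1) subset_rfl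
  · exact hlegs.mono (by omega)

/-- two chains -/
theorem piece_two {b b' : V} (hb : T.Cor h b) (hb' : T.Cor h b') :
    PP (fun x y => f (T.dd x y)) (T.Str h b 0 (T.dep b)) (T.Str h b' 0 (T.dep b'))
      (hcost (comm (fun x y => f (T.dd x y))).rank + 1 +
        Nat.clog 2 (2 * (comm (fun x y => f (T.dd x y))).rank) + 2 + 2) := by
  have h2 : 2 * h ≤ t := by omega
  obtain ⟨m1, m2, m3⟩ := T.mt_spec b b'
  refine PP.ifX (fun x => T.pd h x ≤ T.mt b b') (PP.ifY (fun y => T.pd h y ≤ T.mt b b') ?_ ?_)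
    (PP.ifY (fun y => T.pd h y ≤ T.mt b b') ?_ ?_)
  · -- the common chain
    have hB : T.Cor h (T.anc b (T.mt b b')) := hb.up (T.sub_anc m1)
    refine (piece_one hC f t ht hh hf hft htr hB).subset ?_ ?_
    · rintro x ⟨hx, hx'⟩
      refine ⟨?_, Nat.zero_le _, by rw [T.dep_anc m1]; exact hx'⟩
      rw [T.anc_anc hx' m1]
      exact hx.1
    · rintro x ⟨hx, hx'⟩
      refine ⟨?_, Nat.zero_le _, by rw [T.dep_anc m1]; exact hx'⟩
      rw [m3, T.anc_anc hx' m2]
      exact hx.1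
  · -- Bob is below the branching
    have hp : PP (fun x y => f (T.dd x y)) (T.Str h b 0 (T.mt b b'))
        (T.Str h b' (T.mt b b' + 1) (T.dep b'))
        (hcost (comm (fun x y => f (T.dd x y))).rank) := by
      refine PP.hankel _ _ _ (fun x => (T.dep x : ℤ) - 2 * (T.pd h x : ℤ))
        (fun x => (T.dep x : ℤ)) (fun s => f s.toNat) (conn_sub hC hb m1)
        (conn_dep hC hb' le_rfl) ?_
      intro x hx y hy
      rw [val hC f t h2 hf m1 le_rfl hx hy]
      congr 1
      have a1 := hx.2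
      have a2 := hy.2
      have b1 := pd_le (T := T) (h := h) x
      have b2 := pd_le (T := T) (h := h) y
      omega
    refine (hp.mono (by omega)).subset ?_ ?_
    · rintro x ⟨hx, hx'⟩
      exact ⟨hx.1, Nat.zero_le _, hx'⟩
    · rintro y ⟨hy, hy'⟩
      exact ⟨hy.1, by omega, hy.2.2⟩
  · -- Alice is below the branching
    have hp : PP (fun x y => f (T.dd x y)) (T.Str h b (T.mt b b' + 1) (T.dep b))
        (T.Str h b' 0 (T.mt b b'))
        (hcost (comm (fun x y => f (T.dd x y))).rank) := by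
      refine PP.hankel _ _ _ (fun x => (T.dep x : ℤ))
        (fun x => (T.dep x : ℤ) - 2 * (T.pd h x : ℤ)) (fun s => f s.toNat)
        (conn_dep hC hb le_rfl) (conn_sub hC hb' m2) ?_
      intro x hx y hy
      rw [val hC f t h2 hf le_rfl m2 hx hy]
      congr 1
      have a1 := hx.2
      have a2 := hy.2
      have b1 := pd_le (T := T) (h := h) x
      have b2 := pd_le (T := T) (h := h) y
      omega
    refine (hp.mono (by omega)).subset ?_ ?_
    · rintro x ⟨hx, hx'⟩
      exact ⟨hx.1, by omega, hx.2.2⟩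
    · rintro y ⟨hy, hy'⟩
      exact ⟨hy.1, Nat.zero_le _, hy'⟩
  · -- both are below the branching
    have hp : PP (fun x y => f (T.dd x y)) (T.Str h b (T.mt b b' + 1) (T.dep b))
        (T.Str h b' (T.mt b b' + 1) (T.dep b'))
        (hcost (comm (fun x y => f (T.dd x y))).rank) := by
      refine PP.hankel _ _ _ (fun x => (T.dep x : ℤ)) (fun x => (T.dep x : ℤ))
        (fun s => f (s - 2 * T.mt b b').toNat)
        (conn_dep hC hb le_rfl) (conn_dep hC hb' le_rfl) ?_
      intro x hx y hy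
      rw [val hC f t h2 hf le_rfl le_rfl hx hy]
      congr 1
      have a1 := hx.2
      have a2 := hy.2
      have b1 := pd_le (T := T) (h := h) x
      have b2 := pd_le (T := T) (h := h) y
      omega
    refine (hp.mono (by omega)).subset ?_ ?_
    · rintro x ⟨hx, hx'⟩
      exact ⟨hx.1, by omega, hx.2.2⟩
    · rintro y ⟨hy, hy'⟩
      exact ⟨hy.1, by omega, hy.2.2⟩

/-- **The first case.** -/
theorem caseI : Proto (fun x y => f (T.dd x y))
    (hcost (comm (fun x y => f (T.dd x y))).rank + 1 +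
      Nat.clog 2 (2 * (comm (fun x y => f (T.dd x y))).rank) + 2 + 2 +
      Nat.clog 2 ((comm (fun x y => f (T.dd x y))).rank + 1) +
      Nat.clog 2 ((comm (fun x y => f (T.dd x y))).rank + 1)) := by
  obtain ⟨N, lab, bot, h1, h2, h3⟩ := exists_labels hC f t ht hh hf hft
  have h4 := h1.trans (Nat.le_pow_clog (b := 2) (by norm_num) _)
  apply PP.proto
  refine PP.splitX N lab (fun x _ => h2 x) h4 (fun c _ => ?_)
  refine PP.splitY N lab (fun x _ => h2 x) h4 (fun c' _ => ?_)
  by_cases hA : ∃ x, lab x = c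
  · by_cases hA' : ∃ y, lab y = c'
    · obtain ⟨x0, rfl⟩ := hA
      obtain ⟨y0, rfl⟩ := hA'
      refine (piece_two hC f t ht hh hf hft htr (h3 x0).1 (h3 y0).1).subset ?_ ?_
      · rintro x ⟨-, hx⟩
        have := h3 x
        rw [hx] at this
        exact ⟨this.2.2, Nat.zero_le _, this.2.1⟩
      · rintro x ⟨-, hx⟩
        have := h3 x
        rw [hx] at this
        exact ⟨this.2.2, Nat.zero_le _, this.2.1⟩
    · apply PP.empty
      rintro x _ y ⟨_, hy⟩
      exact hA' ⟨y, hy⟩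
  · apply PP.empty
    rintro x ⟨_, hx⟩
    exact absurd ⟨x, hx⟩ hA

end

end RT

end Pool.Agent.K1H68.TD
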