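import Pool.Agent.K1H68.TD.Rooted

/-!
# Trees as graphs and as rooted trees
-/

set_option autoImplicit false

namespace Pool.Agent.K1H68.TD

open RT

theorem exists_parent {V : Type} {G : SimpleGraph V} (hG : G.IsTree) (z v : V) (hv : v ≠ z) :
    ∃ u, G.Adj u v ∧ G.dist z u + 1 = G.dist z v := by
  obtain ⟨p, hp, hlen⟩ := hG.connected.exists_path_of_dist z v
  have hnil : ¬ p.Nil := by
    intro h
    exact hv h.eq.symm
  refine ⟨p.penultimate, p.adj_penultimate hnil, ?_⟩
  have h1 : G.dist z p.penultimate ≤ p.dropLast.length := SimpleGraph.dist_le _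
  have h2 : p.dropLast.length + 1 = p.length := by
    have := congrArg SimpleGraph.Walk.length (p.concat_dropLast (p.adj_penultimate hnil))
    rw [SimpleGraph.Walk.length_concat] at this
    exact this
  have h3 := hG.dist_eq_dist_add_one_of_adj z (p.adj_penultimate hnil)
  omega

theorem parent_unique {V : Type} {G : SimpleGraph V} (hG : G.IsTree) (z v u u' : V)
    (h : G.Adj u v) (hd : G.dist z u + 1 = G.dist z v) (h' : G.Adj u' v)
    (hd' : G.dist z u' + 1 = G.dist z v) : u = u' := by
  obtain ⟨p, hp⟩ := hG.connected.exists_walk_length_eq_dist z u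
  obtain ⟨p', hp'⟩ := hG.connected.exists_walk_length_eq_dist z u'
  have h1 : (p.concat h).IsPath := by
    apply SimpleGraph.Walk.isPath_of_length_eq_dist
    rw [SimpleGraph.Walk.length_concat, hp, hd]
  have h1' : (p'.concat h').IsPath := by
    apply SimpleGraph.Walk.isPath_of_length_eq_dist
    rw [SimpleGraph.Walk.length_concat, hp', hd']
  have h2 := hG.isAcyclic.path_unique ⟨_, h1⟩ ⟨_, h1'⟩
  have h3 : p.concat h = p'.concat h' := congrArg Subtype.val h2
  have h4 := congrArg SimpleGraph.Walk.penultimate h3
  rwa [SimpleGraph.Walk.penultimate_concat, SimpleGraph.Walk.penultimate_concat] at h4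

theorem exists_rt {V : Type} (G : SimpleGraph V) (hG : G.IsTree) (z : V) :
    ∃ T : RT V, T.root = z ∧ (∀ v, T.dep v = G.dist z v) ∧ ∀ x y, G.dist x y = T.dd x y := by
  classical
  have hp : ∀ v, ∃ u, v ≠ z → G.Adj u v ∧ G.dist z u + 1 = G.dist z v := by
    intro v
    by_cases hv : v = z
    · exact ⟨v, fun h => absurd hv h⟩
    · obtain ⟨u, hu⟩ := exists_parent hG z v hv
      exact ⟨u, fun _ => hu⟩
  choose par hpar using hp
  have hz : ∀ v, G.dist z v = 0 ↔ v = z := by
    intro v
    rw [hG.connected.dist_eq_zero_iff]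
    exact eq_comm
  let T : RT V := ⟨fun v => G.dist z v, par, z, hz, fun v hv =>
    (hpar v (fun h => hv ((hz v).2 h))).2⟩
  have hadj : ∀ v, T.dep v ≠ 0 → G.Adj (par v) v := fun v hv =>
    (hpar v (fun h => hv ((hz v).2 h))).1
  refine ⟨T, rfl, fun v => rfl, fun x y => le_antisymm ?_ ?_⟩
  · -- upper bound
    have hit : ∀ (v : V) (j : ℕ), j ≤ T.dep v → G.dist (T.par^[j] v) v ≤ j := by
      intro v j
      induction j with
      | zero => intro _; simp
      | succ j ih =>
        intro hj
        rw [Function.iterate_succ_apply']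
        have h1 := ih (by omega)
        have h2 : T.dep (T.par^[j] v) ≠ 0 := by
          rw [T.dep_iter v j (by omega)]
          omega
        have h3 := hadj _ h2
        have h4 : G.dist (T.par (T.par^[j] v)) (T.par^[j] v) = 1 := SimpleGraph.dist_eq_one_iff_adj.2 h3
        have h5 := hG.connected.dist_triangle (u := T.par (T.par^[j] v)) (v := T.par^[j] v) (w := v)
        omega
    obtain ⟨h1, h2, h3⟩ := T.mt_spec x y
    have h4 : G.dist (T.anc x (T.mt x y)) x ≤ T.dep x - T.mt x y := hit x _ (by omega)
    have h5 : G.dist (T.anc y (T.mt x y)) y ≤ T.dep y - T.mt x y := hit y _ (by omega)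
    have h6 := hG.connected.dist_triangle (u := x) (v := T.anc x (T.mt x y)) (w := y)
    have h7 : G.dist x (T.anc x (T.mt x y)) = G.dist (T.anc x (T.mt x y)) x := G.dist_comm
    rw [← h3] at h5
    unfold dd
    omega
  · -- lower bound
    have hstep : ∀ v y, T.dep v ≠ 0 →
        T.dd v y ≤ T.dd (T.par v) y + 1 ∧ T.dd (T.par v) y ≤ T.dd v y + 1 := by
      intro v y hv
      have h1 := T.hpar v hv
      have h2 : T.anc v (T.dep v - 1) = T.par v := by
        have h3 : T.par (T.anc v (T.dep v - 1 + 1)) = T.anc v (T.dep v - 1) := T.par_anc (by omega)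
        rw [show T.dep v - 1 + 1 = T.dep v by omega, T.anc_self] at h3
        exact h3.symm
      have h3 := T.mt_anc_left (x := v) (y := y) (i := T.dep v - 1) (by omega)
      rw [h2] at h3
      have h4 := T.mt_spec v y
      unfold dd
      omega
    have hedge : ∀ u v y, G.Adj u v → T.dd u y ≤ T.dd v y + 1 := by
      intro u v y huv
      rcases hG.dist_eq_dist_add_one_of_adj z huv with h | h
      · -- `v` is the parent of `u`
        have hu : T.dep u ≠ 0 := by
          show G.dist z u ≠ 0
          omega
        have h1 : T.par u = v := parent_unique hG z u _ _ (hadj u hu) (T.hpar u hu) huv.symm h.symm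
        rw [← h1]
        exact (hstep u y hu).1
      · have hv : T.dep v ≠ 0 := by
          show G.dist z v ≠ 0
          omega
        have h1 : T.par v = u := parent_unique hG z v _ _ (hadj v hv) (T.hpar v hv) huv h.symm
        rw [← h1]
        exact (hstep v y hv).2
    have hwalk : ∀ (u v : V) (p : G.Walk u v), T.dd u v ≤ p.length := by
      intro u v p
      induction p with
      | nil => rw [T.dd_self]; exact Nat.zero_le _
      | cons h p ih =>
        rw [SimpleGraph.Walk.length_cons]
        exact (hedge _ _ _ h).trans (by omega)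
    obtain ⟨p, hp⟩ := hG.connected.exists_walk_length_eq_dist x y
    rw [← hp]
    exact hwalk x y p

end Pool.Agent.K1H68.TD
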