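import Pool.Agent.K1H68.TD.CaseI
import Pool.Agent.K1H68.TD.Link
import Pool.Agent.K1H68.CP.Final

/-!
# Large first deviation from the parity, and the main theorem
-/

set_option autoImplicit false
set_option linter.unusedSectionVars false

namespace Pool.Agent.K1H68.TD

open Finset Pool.Agent.H630R2.LR

theorem aux1 {r R a a' : ℕ} (h : min (R - a) (2 * r + 1) = min (R - a') (2 * r + 1)) (ha : a ≤ R)
    (ha' : a' ≤ R) (hlt : R - a ≤ 2 * r) : a = a' := by omega

theorem aux2 {r l p q p' q' : ℕ} (hp : min p (r + 1) = min p' (r + 1))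
    (hq : min q (r + 1) = min q' (r + 1)) :
    min (min l (min p q)) (r + 1) = min (min l (min p' q')) (r + 1) := by
  have e : ∀ a b, min (min l (min a b)) (r + 1) = min l (min (min a (r + 1)) (min b (r + 1))) := by
    intro a b
    rw [min_assoc, min_assoc a (r + 1), min_comm (r + 1) (min b (r + 1)), min_assoc b, min_self,
      min_assoc a b]
  rw [e, e, hp, hq]

theorem aux3 {r t R a b a' b' m m' : ℕ} (ha : a ≤ R) (hb : b ≤ R) (ha' : a' ≤ R) (hb' : b' ≤ R)
    (hRt : 2 * R ≤ t + 2 * r + 1) (h1 : min (R - a) (2 * r + 1) = min (R - a') (2 * r + 1))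
    (h2 : min (R - b) (2 * r + 1) = min (R - b') (2 * r + 1))
    (h3 : min m (r + 1) = min m' (r + 1))
    (hd : ¬ a + b - 2 * m ≤ t) : a + b - 2 * m = a' + b' - 2 * m' := by
  have e1 := aux1 h1 ha ha' (by omega)
  have e2 := aux1 h2 hb hb' (by omega)
  have e3 : m ≤ r := by omega
  have e4 : m = m' := by omega
  rw [e1, e2, e4]

namespace RT

variable {V : Type} {T : RT V} {h : ℕ}

theorem dd_path (q : V) {i j : ℕ} (hi : i ≤ T.dep q) (hj : j ≤ T.dep q) :
    T.dd (T.anc q i) (T.anc q j) = i + j - 2 * min i j := by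
  unfold dd
  rw [T.mt_anc hi hj, T.mt_self, T.dep_anc hi, T.dep_anc hj]
  congr 2
  omega

/-- a long path gives a large rank -/
theorem path_bound [Fintype V] (f : ℕ → Bool) (t : ℕ) (ht : 1 ≤ t)
    (hf : ∀ s s' : ℕ, s ≤ t → s' ≤ t → s % 2 = s' % 2 → f s = f s')
    (hft : f (t + 1) ≠ f (t - 1)) (q : V)
    (htr : (comm (fun x y => f (T.dd x y))).rank + 1 ≤ t) :
    T.dep q ≤ t + 2 * (comm (fun x y => f (T.dd x y))).rank := by
  classical
  by_contra hlt
  set r := (comm (fun x y => f (T.dd x y))).rank with hr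
  have h1 : (Finset.range (r + 1)).card ≤ (comm (fun x y => f (T.dd x y))).rank := by
    refine card_le_rank _ (Finset.range (r + 1)) (fun i => T.anc q (2 * i))
      (fun i => T.anc q (2 * i + 2)) (fun i => T.anc q (2 * i + t + 1)) (fun i => (i : ℤ)) ?_ ?_
    · intro i hi
      rw [Finset.mem_range] at hi
      rw [dd_path q (by omega) (by omega), dd_path q (by omega) (by omega),
        show 2 * i + (2 * i + t + 1) - 2 * min (2 * i) (2 * i + t + 1) = t + 1 by omega,
        show 2 * i + 2 + (2 * i + t + 1) - 2 * min (2 * i + 2) (2 * i + t + 1) = t - 1 by omega]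
      exact hft
    · intro i hi j hj hne hρ
      rw [Finset.mem_range] at hi hj
      have hρ' : j ≤ i := by exact_mod_cast hρ
      rw [dd_path q (by omega) (by omega), dd_path q (by omega) (by omega)]
      apply hf <;> omega
  rw [Finset.card_range, ← hr] at h1
  omega

/-- **The second case.** -/
theorem caseII [Fintype V] (hC : T.Cor h T.root) (f : ℕ → Bool) (t : ℕ) (ht : 1 ≤ t)
    (hh : h = t / 2)
    (hf : ∀ s s' : ℕ, s ≤ t → s' ≤ t → s % 2 = s' % 2 → f s = f s')
    (hft : f (t + 1) ≠ f (t - 1)) (r R w : ℕ) (hr : r = (comm (fun x y => f (T.dd x y))).rank)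
    (hR : ∀ x, T.dep x ≤ R) (hRt : 2 * R ≤ t + 2 * r + 1)
    (hw : (r + 1) * ((2 * r + 2) * (2 * (r + 2))) ≤ 2 ^ w) :
    Proto (fun x y => f (T.dd x y)) (w + w) := by
  classical
  obtain ⟨N, lab, bot, h1, h2, h3⟩ := exists_labels hC f t ht hh hf hft
  rw [← hr] at h1
  let g : V → N × (Fin (2 * r + 2) × (Fin 2 × Fin (r + 2))) := fun x =>
    (⟨lab x, h2 x⟩, ⟨min (R - T.dep x) (2 * r + 1), by omega⟩, ⟨T.dep x % 2, by omega⟩,
      ⟨min (T.pd h x) (r + 1), by omega⟩)
  have hcard : Fintype.card (N × (Fin (2 * r + 2) × (Fin 2 × Fin (r + 2)))) ≤ 2 ^ w := by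
    rw [Fintype.card_prod, Fintype.card_prod, Fintype.card_prod, Fintype.card_fin,
      Fintype.card_fin, Fintype.card_fin, Fintype.card_coe]
    exact (Nat.mul_le_mul_right _ h1).trans hw
  have hg : ∀ x x', g x = g x' → lab x = lab x' ∧
      min (R - T.dep x) (2 * r + 1) = min (R - T.dep x') (2 * r + 1) ∧
      T.dep x % 2 = T.dep x' % 2 ∧ min (T.pd h x) (r + 1) = min (T.pd h x') (r + 1) := by
    intro x x' he
    simp only [g, Prod.mk.injEq, Subtype.mk.injEq, Fin.mk.injEq] at he
    exact ⟨he.1, he.2.1, he.2.2.1, he.2.2.2⟩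
  refine proto_of_messages g g hcard hcard ?_
  intro x x' y y' hx hy
  obtain ⟨a1, a2, a3, a4⟩ := hg x x' hx
  obtain ⟨b1, b2, b3, b4⟩ := hg y y' hy
  have e1 := h3 x
  have e2 := h3 x'
  have e3 := h3 y
  have e4 := h3 y'
  rw [← a1] at e2
  rw [← b1] at e4
  rw [dd_core hC f t (by omega) hf x y, dd_core hC f t (by omega) hf x' y', e1.2.2, e2.2.2,
    e3.2.2, e4.2.2, T.mt_anc e1.2.1 e3.2.1, T.mt_anc e2.2.1 e4.2.1]
  have c1 := hR x
  have c2 := hR y
  have c3 := hR x'
  have c4 := hR y'
  have d1 := pd_le (T := T) (h := h) x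
  have d2 := pd_le (T := T) (h := h) y
  have d3 := pd_le (T := T) (h := h) x'
  have d4 := pd_le (T := T) (h := h) y'
  have c5 := aux2 (l := T.mt (bot (lab x)) (bot (lab y))) a4 b4
  have c6 : min (T.mt (bot (lab x)) (bot (lab y))) (min (T.pd h x) (T.pd h y)) ≤ T.dep x ∧
      min (T.mt (bot (lab x)) (bot (lab y))) (min (T.pd h x) (T.pd h y)) ≤ T.dep y :=
    ⟨((min_le_right _ _).trans (min_le_left _ _)).trans d1,
      ((min_le_right _ _).trans (min_le_right _ _)).trans d2⟩
  have c7 : min (T.mt (bot (lab x)) (bot (lab y))) (min (T.pd h x') (T.pd h y')) ≤ T.dep x' ∧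
      min (T.mt (bot (lab x)) (bot (lab y))) (min (T.pd h x') (T.pd h y')) ≤ T.dep y' :=
    ⟨((min_le_right _ _).trans (min_le_left _ _)).trans d3,
      ((min_le_right _ _).trans (min_le_right _ _)).trans d4⟩
  generalize min (T.mt (bot (lab x)) (bot (lab y))) (min (T.pd h x) (T.pd h y)) = m at c5 c6 ⊢
  generalize min (T.mt (bot (lab x)) (bot (lab y))) (min (T.pd h x') (T.pd h y')) = m' at c5 c7 ⊢
  clear d1 d2 d3 d4 e1 e2 e3 e4 a1 b1 a4 b4 hx hy
  by_cases hle : T.dep x + T.dep y - 2 * m ≤ t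
  · by_cases hle' : T.dep x' + T.dep y' - 2 * m' ≤ t
    · apply hf _ _ hle hle'
      clear a2 b2 c5
      omega
    · rw [aux3 c3 c4 c1 c2 hRt a2.symm b2.symm c5.symm hle']
  · rw [aux3 c1 c2 c3 c4 hRt a2 b2 c5 hle]

end RT

/-- the cost -/
noncomputable def tcost (r : ℕ) : ℕ :=
  max (hcost r + 1 + Nat.clog 2 (2 * r) + 2 + 2 + Nat.clog 2 (r + 1) + Nat.clog 2 (r + 1))
    (Nat.clog 2 ((r + 1) * ((2 * r + 2) * (2 * (r + 2)))) +
      Nat.clog 2 ((r + 1) * ((2 * r + 2) * (2 * (r + 2)))))

/-- **Functions of the distance in a tree.** -/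
theorem proto_tree {V : Type} [Fintype V] (G : SimpleGraph V) (hG : G.IsTree) (f : ℕ → Bool) :
    Proto (fun x y => f (G.dist x y)) (tcost (comm (fun x y => f (G.dist x y))).rank) := by
  classical
  have hne : Nonempty V := hG.connected.nonempty
  -- the diameter
  obtain ⟨⟨p, q⟩, -, hpq⟩ := Finset.exists_max_image (Finset.univ : Finset (V × V))
    (fun a => G.dist a.1 a.2) Finset.univ_nonempty
  have hD : ∀ x y, G.dist x y ≤ G.dist p q := fun x y => hpq (x, y) (Finset.mem_univ _)
  obtain ⟨T0, hroot0, hdep0, hdd0⟩ := exists_rt G hG p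
  by_cases hpar : ∀ s, s + 2 ≤ G.dist p q → f (s + 2) = f s
  · -- only the parity matters
    have h1 : ∀ s, s ≤ G.dist p q → f s = f (s % 2) := by
      intro s
      induction s using Nat.strong_induction_on with
      | _ s ih =>
        intro hs
        by_cases h2 : s < 2
        · rw [Nat.mod_eq_of_lt h2]
        · obtain ⟨s', rfl⟩ : ∃ s', s = s' + 2 := ⟨s - 2, by omega⟩
          rw [hpar s' hs, ih s' (by omega) (by omega)]
          congr 1
          omega
    have h2 : Proto (fun x y => f (G.dist x y)) (1 + 1) := by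
      refine proto_of_messages (fun x => (⟨T0.dep x % 2, by omega⟩ : Fin 2))
        (fun x => (⟨T0.dep x % 2, by omega⟩ : Fin 2)) (by simp) (by simp) ?_
      intro x x' y y' hx hy
      simp only [Fin.mk.injEq] at hx hy
      rw [h1 _ (hD x y), h1 _ (hD x' y'), hdd0, hdd0]
      have e1 := T0.dd_add x y
      have e2 := T0.dd_add x' y'
      congr 1
      omega
    refine h2.mono ?_
    unfold tcost
    exact le_trans (by omega) (le_max_left _ _)
  · -- the first deviation
    have hex : ∃ s, s + 2 ≤ G.dist p q ∧ f (s + 2) ≠ f s := by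
      push Not at hpar
      exact hpar
    obtain ⟨h1, h2⟩ := Nat.find_spec hex
    have h3 := fun s (hs : s < Nat.find hex) => Nat.find_min hex hs
    generalize Nat.find hex = s at h1 h2 h3
    have hf : ∀ s1 s2 : ℕ, s1 ≤ s + 1 → s2 ≤ s + 1 → s1 % 2 = s2 % 2 → f s1 = f s2 := by
      have h4 : ∀ n, n ≤ s + 1 → f n = f (n % 2) := by
        intro n
        induction n using Nat.strong_induction_on with
        | _ n ih =>
          intro hn
          by_cases h5 : n < 2
          · rw [Nat.mod_eq_of_lt h5]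
          · obtain ⟨n', rfl⟩ : ∃ n', n = n' + 2 := ⟨n - 2, by omega⟩
            have h6 := h3 n' (by omega)
            push Not at h6
            rw [h6 (by omega), ih n' (by omega) (by omega)]
            congr 1
            omega
      intro s1 s2 a1 a2 a3
      rw [h4 s1 a1, h4 s2 a2, a3]
    have hft : f (s + 1 + 1) ≠ f (s + 1 - 1) := by
      rw [show s + 1 + 1 = s + 2 by ring, show s + 1 - 1 = s by omega]
      exact h2
    -- the centre
    have hdq : T0.dep q = G.dist p q := hdep0 q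
    obtain ⟨T, hroot, hdep, hdd⟩ := exists_rt G hG (T0.anc q (G.dist p q / 2))
    have hR : ∀ x, T.dep x ≤ (G.dist p q + 1) / 2 := by
      intro x
      rw [hdep, hdd0]
      have h4 := T0.mt_anc_left (x := q) (y := x) (i := G.dist p q / 2) (by omega)
      have h5 := T0.dep_anc (v := q) (k := G.dist p q / 2) (by omega)
      have h6 := T0.dd_add (T0.anc q (G.dist p q / 2)) x
      have h7 := T0.dd_add q x
      have h8 : T0.dep x ≤ G.dist p q := by rw [hdep0]; exact hD p x
      have h9 : T0.dd q x ≤ G.dist p q := by rw [← hdd0]; exact hD q x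
      have h10 := T0.mt_spec q x
      omega
    have hFT : (fun x y => f (G.dist x y)) = fun x y => f (T.dd x y) := by
      funext x y
      rw [hdd]
    have hFT0 : (fun x y => f (G.dist x y)) = fun x y => f (T0.dd x y) := by
      funext x y
      rw [hdd0]
    have hC : T.Cor ((s + 1) / 2) T.root := by
      have h4 := T.dd_add p q
      rw [← hdd] at h4
      have h5 : ∀ y, T.Sub T.root y := by
        intro y
        have h6 : T.dep T.root = 0 := (T.hroot _).2 rfl
        exact ⟨by omega, by rw [h6, RT.anc_zero]⟩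
      have h6 : T.dep T.root = 0 := (T.hroot _).2 rfl
      by_cases h7 : (s + 1) / 2 ≤ T.dep p
      · exact ⟨p, h5 p, by omega⟩
      · exact ⟨q, h5 q, by omega⟩
    by_cases hcase : s + 1 ≤ (comm (fun x y => f (G.dist x y))).rank
    · rw [hFT] at hcase ⊢
      refine (RT.caseI hC f (s + 1) (by omega) rfl hf hft hcase).mono ?_
      unfold tcost
      exact le_max_left _ _
    · have hb : T0.dep q ≤ (s + 1) + 2 * (comm (fun x y => f (G.dist x y))).rank := by
        have h4 := RT.path_bound (T := T0) f (s + 1) (by omega) hf hft q (by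
          rw [← hFT0]
          omega)
        rw [← hFT0] at h4
        exact h4
      have h5 := RT.caseII hC f (s + 1) (by omega) rfl hf hft
        (comm (fun x y => f (G.dist x y))).rank ((G.dist p q + 1) / 2)
        (Nat.clog 2 (((comm (fun x y => f (G.dist x y))).rank + 1) *
          ((2 * (comm (fun x y => f (G.dist x y))).rank + 2) *
            (2 * ((comm (fun x y => f (G.dist x y))).rank + 2)))))
        (by rw [hFT]) hR (by omega) (Nat.le_pow_clog (by norm_num) _)
      rw [← hFT] at h5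
      refine h5.mono ?_
      unfold tcost
      exact le_max_right _ _

theorem tcost_le (r : ℕ) : (tcost r : ℝ) ≤ 24 * (Real.logb 2 r + 1) ^ 5 := by
  have hl := logb_nonneg r
  have h1 := ccost_le 1 r
  have h2 := Pool.Agent.K1H68.CP.clog_sq_le r
  have h5 : (Real.logb 2 r + 1) ≤ (Real.logb 2 r + 1) ^ 5 := by
    have : (1 : ℝ) ≤ Real.logb 2 r + 1 := by linarith
    calc (Real.logb 2 r + 1) = (Real.logb 2 r + 1) ^ 1 := (pow_one _).symm
      _ ≤ _ := pow_le_pow_right₀ this (by norm_num)
  have h6 : (1 : ℝ) ≤ (Real.logb 2 r + 1) ^ 5 := by linarith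
  have hr1 : Real.logb 2 ((r + 1 : ℕ) : ℝ) ≤ Real.logb 2 r + 1 := by
    push_cast
    rcases Nat.eq_zero_or_pos r with h0 | h0
    · rw [h0]; simp
    · have h5 : Real.logb 2 r + 1 = Real.logb 2 (r * 2) := by
        rw [Real.logb_mul (by positivity) (by norm_num), Real.logb_self_eq_one (by norm_num)]
      rw [h5]
      refine Real.logb_le_logb_of_le (by norm_num) (by positivity) ?_
      have : (1 : ℝ) ≤ r := by exact_mod_cast h0
      linarith
  have h3 : (Nat.clog 2 (r + 1) : ℝ) ≤ 2 * (Real.logb 2 r + 1) := by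
    have := clog_le (r + 1)
    linarith
  have h4 : (Nat.clog 2 (2 * r) : ℝ) ≤ 2 * (Real.logb 2 r + 1) := by
    rcases Nat.eq_zero_or_pos r with h0 | h0
    · rw [h0]; simp
    · have h7 := clog_le (2 * r)
      have h8 : Real.logb 2 ((2 * r : ℕ) : ℝ) = 1 + Real.logb 2 r := by
        push_cast
        rw [Real.logb_mul (by norm_num) (by positivity), Real.logb_self_eq_one (by norm_num)]
      rw [h8] at h7
      linarith
  have h7 : (Nat.clog 2 ((r + 1) * ((2 * r + 2) * (2 * (r + 2)))) : ℝ) ≤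
      8 * (Real.logb 2 r + 1) := by
    have e1 : (r + 1) * ((2 * r + 2) * (2 * (r + 2))) ≤ 8 * (r + 1) ^ 3 := by
      have : (r + 1) * ((2 * r + 2) * (2 * (r + 2))) = (r + 1) ^ 2 * (4 * (r + 2)) := by ring
      rw [this, show 8 * (r + 1) ^ 3 = (r + 1) ^ 2 * (8 * (r + 1)) by ring]
      exact Nat.mul_le_mul_left _ (by omega)
    have e2 : (Nat.clog 2 ((r + 1) * ((2 * r + 2) * (2 * (r + 2)))) : ℝ) ≤
        (Nat.clog 2 (8 * (r + 1) ^ 3) : ℝ) := by exact_mod_cast Nat.clog_mono_right 2 e1
    have e3 := clog_le (8 * (r + 1) ^ 3)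
    have e4 : Real.logb 2 ((8 * (r + 1) ^ 3 : ℕ) : ℝ) = 3 + 3 * Real.logb 2 ((r + 1 : ℕ) : ℝ) := by
      push_cast
      rw [Real.logb_mul (by norm_num) (by positivity), Real.logb_pow,
        show (8 : ℝ) = 2 ^ (3 : ℕ) by norm_num, Real.logb_pow, Real.logb_self_eq_one (by norm_num)]
      norm_num
    rw [e4] at e3
    linarith
  unfold tcost
  rw [Nat.cast_max]
  apply max_le
  · unfold hcost
    push_cast at h1 h2 ⊢
    linarith
  · push_cast
    linarith

end Pool.Agent.K1H68.TD
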