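import Pool.Agent.H630R2.LR.Hankel

/-!
# Protocols on rectangles
-/

set_option autoImplicit false

namespace Pool.Agent.K1H68.TD

open Finset Pool.Agent.H630R2.LR

theorem cm {X Y : Type} (F : X → Y → Bool) (x : X) (y : Y) :
    Pool.Agent.H630R2.LR.comm F x y = if F x y then (1 : ℝ) else 0 := rfl

section

variable {X Y : Type}

/-- `F` has a protocol with `c` bits on the rectangle `A × B` -/
def PP (F : X → Y → Bool) (A : Set X) (B : Set Y) (c : ℕ) : Prop :=
  ∃ F' : X → Y → Bool, Proto F' c ∧ ∀ x ∈ A, ∀ y ∈ B, F' x y = F x y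

theorem PP.proto {F : X → Y → Bool} {c : ℕ} (h : PP F Set.univ Set.univ c) : Proto F c := by
  obtain ⟨F', h1, h2⟩ := h
  have : F' = F := by
    funext x y
    exact h2 x (Set.mem_univ _) y (Set.mem_univ _)
  rwa [this] at h1

theorem PP.mono {F : X → Y → Bool} {A : Set X} {B : Set Y} {c c' : ℕ} (h : PP F A B c)
    (hc : c ≤ c') : PP F A B c' := by
  obtain ⟨F', h1, h2⟩ := h
  exact ⟨F', h1.mono hc, h2⟩

theorem PP.subset {F : X → Y → Bool} {A A' : Set X} {B B' : Set Y} {c : ℕ} (h : PP F A B c)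
    (hA : A' ⊆ A) (hB : B' ⊆ B) : PP F A' B' c := by
  obtain ⟨F', h1, h2⟩ := h
  exact ⟨F', h1, fun x hx y hy => h2 x (hA hx) y (hB hy)⟩

theorem PP.swap {F : X → Y → Bool} {A : Set X} {B : Set Y} {c : ℕ} (h : PP F A B c) :
    PP (fun y x => F x y) B A c := by
  obtain ⟨F', h1, h2⟩ := h
  exact ⟨fun y x => F' x y, h1.swap, fun y hy x hx => h2 x hx y hy⟩

theorem PP.splitX {F : X → Y → Bool} {A : Set X} {B : Set Y} {c w : ℕ} {Q : Type}
    (N : Finset Q) (g : X → Q) (hg : ∀ x ∈ A, g x ∈ N) (hN : N.card ≤ 2 ^ w)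
    (h : ∀ q ∈ N, PP F {x | x ∈ A ∧ g x = q} B c) : PP F A B (c + w) := by
  classical
  rcases A.eq_empty_or_nonempty with h0 | ⟨x0, hx0⟩
  · refine ⟨fun _ _ => false, (Proto.const _ false fun _ _ => rfl).mono (Nat.zero_le _), ?_⟩
    intro x hx
    rw [h0] at hx
    exact absurd hx (Set.notMem_empty x)
  have h' : ∀ q : N, PP F {x | x ∈ A ∧ g x = q} B c := fun q => h q.1 q.2
  choose Fq hp hv using h'
  let G : X → N := fun x => if hx : g x ∈ N then ⟨g x, hx⟩ else ⟨g x0, hg x0 hx0⟩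
  refine ⟨fun x y => Fq (G x) x y, Proto.sendX _ G w (by simpa using hN) Fq c hp
    (fun x y => rfl), ?_⟩
  intro x hx y hy
  have h1 : G x = ⟨g x, hg x hx⟩ := dif_pos (hg x hx)
  show Fq (G x) x y = F x y
  rw [h1]
  exact hv _ x ⟨hx, rfl⟩ y hy

theorem PP.splitY {F : X → Y → Bool} {A : Set X} {B : Set Y} {c w : ℕ} {Q : Type}
    (N : Finset Q) (g : Y → Q) (hg : ∀ y ∈ B, g y ∈ N) (hN : N.card ≤ 2 ^ w)
    (h : ∀ q ∈ N, PP F A {y | y ∈ B ∧ g y = q} c) : PP F A B (c + w) := by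
  have h1 : PP (fun y x => F x y) B A (c + w) :=
    PP.splitX N g hg hN (fun q hq => (h q hq).swap)
  exact h1.swap

/-- one bit of Alice -/
theorem PP.ifX {F : X → Y → Bool} {A : Set X} {B : Set Y} {c : ℕ} (p : X → Prop)
    (h1 : PP F {x | x ∈ A ∧ p x} B c) (h2 : PP F {x | x ∈ A ∧ ¬ p x} B c) : PP F A B (c + 1) := by
  classical
  refine PP.splitX (w := 1) (Finset.univ : Finset Bool) (fun x => decide (p x))
    (fun _ _ => Finset.mem_univ _) (by simp) (fun q _ => ?_)
  cases q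
  · exact h2.subset (fun x hx => ⟨hx.1, by simpa using hx.2⟩) subset_rfl
  · exact h1.subset (fun x hx => ⟨hx.1, by simpa using hx.2⟩) subset_rfl

theorem PP.ifY {F : X → Y → Bool} {A : Set X} {B : Set Y} {c : ℕ} (p : Y → Prop)
    (h1 : PP F A {y | y ∈ B ∧ p y} c) (h2 : PP F A {y | y ∈ B ∧ ¬ p y} c) : PP F A B (c + 1) :=
  (PP.ifX (F := fun y x => F x y) p h1.swap h2.swap).swap

/-- `F` is determined by two messages -/
theorem proto_of_messages {F : X → Y → Bool} {Q Q' : Type} [Fintype Q] [Fintype Q'] {w w' : ℕ}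
    (g : X → Q) (k : Y → Q') (hQ : Fintype.card Q ≤ 2 ^ w) (hQ' : Fintype.card Q' ≤ 2 ^ w')
    (h : ∀ x x' y y', g x = g x' → k y = k y' → F x y = F x' y') : Proto F (w + w') := by
  classical
  have h1 : ∀ (q : Q) (q' : Q'), ∃ v : Bool, ∀ x y, g x = q → k y = q' → F x y = v := by
    intro q q'
    by_cases hh : ∃ x y, g x = q ∧ k y = q'
    · obtain ⟨x, y, hx, hy⟩ := hh
      exact ⟨F x y, fun x' y' hx' hy' => h _ _ _ _ (hx'.trans hx.symm) (hy'.trans hy.symm)⟩
    · refine ⟨false, fun x y hx hy => absurd ⟨x, y, hx, hy⟩ hh⟩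
  choose v hv using h1
  have h2 : Proto F (0 + w' + w) := by
    refine Proto.sendX F g w hQ (fun q x y => v q (k y)) (0 + w') (fun q => ?_)
      (fun x y => hv _ _ _ _ rfl rfl)
    exact Proto.sendY _ k w' hQ' (fun q' _ _ => v q q') 0
      (fun q' => Proto.const _ (v q q') fun _ _ => rfl) (fun x y => rfl)
  rwa [zero_add, add_comm] at h2

/-- the image of `A` under `α` is an interval -/
def Conn (A : Set X) (α : X → ℤ) : Prop :=
  ∀ x ∈ A, ∀ x' ∈ A, ∀ u : ℤ, α x ≤ u → u ≤ α x' → ∃ x'' ∈ A, α x'' = u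

/-- the cost of a Hankel piece -/
def hcost (r : ℕ) : ℕ := ccost 1 r + 1 + Nat.clog 2 ((r + 1) ^ 2) + Nat.clog 2 ((r + 1) ^ 2)

theorem PP.hankel [Fintype X] [Fintype Y] (F : X → Y → Bool) (A : Set X) (B : Set Y)
    (α : X → ℤ) (β : Y → ℤ) (g : ℤ → Bool) (hA : Conn A α) (hB : Conn B β)
    (hF : ∀ x ∈ A, ∀ y ∈ B, F x y = g (α x + β y)) : PP F A B (hcost (comm F).rank) := by
  classical
  rcases A.eq_empty_or_nonempty with h0 | hAne
  · refine ⟨fun _ _ => false, (Proto.const _ false fun _ _ => rfl).mono (Nat.zero_le _), ?_⟩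
    intro x hx
    rw [h0] at hx
    exact absurd hx (Set.notMem_empty x)
  rcases B.eq_empty_or_nonempty with h0 | hBne
  · refine ⟨fun _ _ => false, (Proto.const _ false fun _ _ => rfl).mono (Nat.zero_le _), ?_⟩
    intro x _ y hy
    rw [h0] at hy
    exact absurd hy (Set.notMem_empty y)
  obtain ⟨x0, hx0, hx0m⟩ := Set.exists_min_image A α (Set.toFinite A) hAne
  obtain ⟨x1, hx1, hx1m⟩ := Set.exists_max_image A α (Set.toFinite A) hAne
  obtain ⟨y0, hy0, hy0m⟩ := Set.exists_min_image B β (Set.toFinite B) hBne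
  obtain ⟨y1, hy1, hy1m⟩ := Set.exists_max_image B β (Set.toFinite B) hBne
  have e1 := hx0m x1 hx1
  have e2 := hy0m y1 hy1
  set m : ℕ := (α x1 - α x0).toNat + 1 with hm
  set n : ℕ := (β y1 - β y0).toNat + 1 with hn
  have hX : ∀ i : Fin m, ∃ x ∈ A, α x = α x0 + (i : ℕ) := by
    intro i
    exact hA x0 hx0 x1 hx1 _ (by omega) (by omega)
  have hY : ∀ j : Fin n, ∃ y ∈ B, β y = β y0 + (j : ℕ) := by
    intro j
    exact hB y0 hy0 y1 hy1 _ (by omega) (by omega)
  choose xx hxx hxx' using hX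
  choose yy hyy hyy' using hY
  let f : ℕ → Bool := fun s => g (α x0 + β y0 + s)
  have hf : ∀ (i : Fin m) (j : Fin n), F (xx i) (yy j) = f (i + j) := by
    intro i j
    rw [hF _ (hxx i) _ (hyy j), hxx', hyy']
    show g _ = g _
    congr 1
    push_cast
    ring
  have hr : (comm (fun (i : Fin m) (j : Fin n) => f (i + j))).rank ≤ (comm F).rank := by
    have : comm (fun (i : Fin m) (j : Fin n) => f (i + j)) = (comm F).submatrix xx yy := by
      ext i j
      rw [Matrix.submatrix_apply, cm, cm, hf]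
    rw [this]
    exact Matrix.rank_submatrix_le _ _ _
  have hp := hankel_core f m n _ hr
  have hpm : 0 < m := by omega
  have hpn : 0 < n := by omega
  let sx : X → Fin m := fun x => if hx : (α x - α x0).toNat < m then ⟨_, hx⟩ else ⟨0, hpm⟩
  let sy : Y → Fin n := fun y => if hy : (β y - β y0).toNat < n then ⟨_, hy⟩ else ⟨0, hpn⟩
  refine ⟨fun x y => f (sx x + sy y), hp.comap sx sy, ?_⟩
  intro x hx y hy
  have a1 := hx0m x hx
  have a2 := hx1m x hx
  have b1 := hy0m y hy
  have b2 := hy1m y hy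
  have a3 : (α x - α x0).toNat < m := by omega
  have b3 : (β y - β y0).toNat < n := by omega
  have a4 : sx x = ⟨_, a3⟩ := dif_pos a3
  have b4 : sy y = ⟨_, b3⟩ := dif_pos b3
  show f (sx x + sy y) = F x y
  rw [a4, b4, hF x hx y hy]
  show g _ = g _
  congr 1
  push_cast
  omega

/-- **Triangular systems of pairs of rows.** -/
theorem card_le_rank [Fintype X] [Fintype Y] (F : X → Y → Bool) {ι : Type} (I : Finset ι)
    (x x' : ι → X) (y : ι → Y) (ρ : ι → ℤ) (h1 : ∀ i ∈ I, F (x i) (y i) ≠ F (x' i) (y i))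
    (h2 : ∀ i ∈ I, ∀ j ∈ I, j ≠ i → ρ j ≤ ρ i → F (x i) (y j) = F (x' i) (y j)) :
    I.card ≤ (comm F).rank := by
  classical
  let M : Matrix X I ℝ := (comm F).submatrix id (fun j : I => y j)
  have hM : M.rank ≤ (comm F).rank := Matrix.rank_submatrix_le _ _ _
  let row : I → (I → ℝ) := fun i => M (x i) - M (x' i)
  have hrow : ∀ i j : I, row i j = (if F (x i) (y j) then (1 : ℝ) else 0) -
      (if F (x' i) (y j) then (1 : ℝ) else 0) := by
    intro i j
    rfl
  have hli : LinearIndependent ℝ row := by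
    rw [Fintype.linearIndependent_iff]
    intro g hg
    by_contra hne
    push Not at hne
    obtain ⟨i0, hi0⟩ := hne
    obtain ⟨j, hj, hjm⟩ := Finset.exists_min_image (Finset.univ.filter (fun i : I => g i ≠ 0))
      (fun i => ρ i) ⟨i0, by simp [hi0]⟩
    have hj0 : g j ≠ 0 := by simpa using hj
    have h3 := congrFun hg j
    rw [Finset.sum_apply, Finset.sum_eq_single j] at h3
    · rw [Pi.smul_apply, hrow, smul_eq_mul, Pi.zero_apply] at h3
      rcases mul_eq_zero.1 h3 with h4 | h4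
      · exact hj0 h4
      · have h5 := h1 j j.2
        revert h4 h5
        cases F (x j) (y j) <;> cases F (x' j) (y j) <;> simp
    · intro i _ hij
      rw [Pi.smul_apply, hrow, smul_eq_mul]
      by_cases hgi : g i = 0
      · rw [hgi, zero_mul]
      · have h4 := h2 i i.2 j j.2 (fun h => hij (Subtype.ext h.symm))
          (hjm i (by simp [hgi]))
        rw [h4, sub_self, mul_zero]
    · intro h
      exact absurd (Finset.mem_univ j) h
  have h3 := finrank_span_eq_card hli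
  have h4 : Submodule.span ℝ (Set.range row) ≤ Submodule.span ℝ (Set.range M.row) := by
    rw [Submodule.span_le]
    rintro _ ⟨i, rfl⟩
    exact Submodule.sub_mem _ (Submodule.subset_span ⟨x i, rfl⟩)
      (Submodule.subset_span ⟨x' i, rfl⟩)
  have h5 := Submodule.finrank_mono h4
  rw [← Matrix.rank_eq_finrank_span_row, h3, Fintype.card_coe] at h5
  exact h5.trans hM

end

end Pool.Agent.K1H68.TD
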