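import Pool.Agent.K1H68.TD.Rooted
import Pool.Agent.K1H68.TD.PP

/-!
# The core of a rooted tree
-/

set_option autoImplicit false

namespace Pool.Agent.K1H68.TD

open Finset Pool.Agent.H630R2.LR

namespace RT

variable {V : Type} (T : RT V) (h : ℕ)

/-- the core: the vertices with a descendant `h` levels below -/
def Cor (v : V) : Prop := ∃ y, T.Sub v y ∧ T.dep v + h ≤ T.dep y

/-- the depth of the last core vertex above `x` -/
noncomputable def pd (x : V) : ℕ := by
  classical exact Nat.findGreatest (fun k => T.Cor h (T.anc x k)) (T.dep x)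

variable {T h}

theorem Cor.up {u v : V} (hv : T.Cor h v) (huv : T.Sub u v) : T.Cor h u := by
  obtain ⟨y, h1, h2⟩ := hv
  exact ⟨y, huv.trans h1, by have := huv.1; omega⟩

theorem pd_le (x : V) : T.pd h x ≤ T.dep x := by
  classical
  exact Nat.findGreatest_le _

theorem cor_pd (hC : T.Cor h T.root) (x : V) : T.Cor h (T.anc x (T.pd h x)) := by
  classical
  exact Nat.findGreatest_spec (P := fun k => T.Cor h (T.anc x k)) (Nat.zero_le _)
    (by rw [anc_zero]; exact hC)

theorem le_pd (hC : T.Cor h T.root) {x : V} {k : ℕ} :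
    k ≤ T.pd h x ↔ k ≤ T.dep x ∧ T.Cor h (T.anc x k) := by
  classical
  constructor
  · intro hk
    refine ⟨hk.trans (pd_le x), (cor_pd hC x).up ?_⟩
    have h1 := T.anc_anc hk (pd_le x)
    rw [← h1]
    exact T.sub_anc (by rw [T.dep_anc (pd_le x)]; exact hk)
  · rintro ⟨h1, h2⟩
    exact Nat.le_findGreatest h1 h2

theorem dep_le_pd (hC : T.Cor h T.root) (x : V) : T.dep x ≤ T.pd h x + h := by
  have h1 : T.dep x - h ≤ T.pd h x := by
    rw [le_pd hC]
    refine ⟨by omega, ?_⟩
    rcases Nat.le_total h (T.dep x) with h2 | h2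
    · exact ⟨x, T.sub_anc (by omega), by rw [T.dep_anc (by omega)]; omega⟩
    · rw [Nat.sub_eq_zero_of_le h2, anc_zero]
      exact hC
  omega

theorem pd_of_cor (hC : T.Cor h T.root) {v : V} (hv : T.Cor h v) : T.pd h v = T.dep v :=
  le_antisymm (pd_le v) ((le_pd hC).2 ⟨le_rfl, by rw [T.anc_self]; exact hv⟩)

theorem pd_anc (hC : T.Cor h T.root) {x : V} {k : ℕ} (hk : k ≤ T.dep x) :
    T.pd h (T.anc x k) = min (T.pd h x) k := by
  apply le_antisymm
  · refine le_min ?_ ((pd_le _).trans (T.dep_anc hk).le)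
    rw [le_pd hC]
    have h1 := (le_pd hC (x := T.anc x k)).1 le_rfl
    rw [T.dep_anc hk] at h1
    rw [T.anc_anc h1.1 hk] at h1
    exact ⟨h1.1.trans hk, h1.2⟩
  · rw [le_pd hC, T.dep_anc hk]
    refine ⟨min_le_right _ _, ?_⟩
    rw [T.anc_anc (min_le_right _ _) hk]
    exact ((le_pd hC).1 (min_le_left _ _)).2

/-- the projection to the core -/
noncomputable def pj (T : RT V) (h : ℕ) (x : V) : V := T.anc x (T.pd h x)

theorem dep_pj (x : V) : T.dep (T.pj h x) = T.pd h x := T.dep_anc (pd_le x)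

theorem pj_anc (hC : T.Cor h T.root) {x : V} {k : ℕ} (hk : k ≤ T.dep x) (hk2 : T.pd h x ≤ k) :
    T.pj h (T.anc x k) = T.pj h x := by
  unfold pj
  rw [pd_anc hC hk, min_eq_left hk2, T.anc_anc hk2 hk]

theorem pj_of_cor (hC : T.Cor h T.root) {v : V} (hv : T.Cor h v) : T.pj h v = v := by
  unfold pj
  rw [pd_of_cor hC hv, T.anc_self]

/-- the last common ancestors and the projections to the core -/
theorem pd_eq_of_lt (hC : T.Cor h T.root) {x y : V} (hlt : T.pd h x < T.mt x y) :
    T.pd h y = T.pd h x := by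
  obtain ⟨h1, h2, h3⟩ := T.mt_spec x y
  have hx := pd_anc hC h1
  have hy := pd_anc hC h2
  rw [h3, hy] at hx
  omega

/-- **The values of a function of the distance.** -/
theorem dd_core (hC : T.Cor h T.root) (f : ℕ → Bool) (t : ℕ) (ht : 2 * h ≤ t)
    (hf : ∀ s s' : ℕ, s ≤ t → s' ≤ t → s % 2 = s' % 2 → f s = f s') (x y : V) :
    f (T.dd x y) = f (T.dep x + T.dep y - 2 * T.mt (T.pj h x) (T.pj h y)) := by
  have h1 := T.dd_add x y
  have h2 : T.mt (T.pj h x) (T.pj h y) = min (T.mt x y) (min (T.pd h x) (T.pd h y)) :=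
    T.mt_anc (pd_le x) (pd_le y)
  have hx := dep_le_pd hC x
  have hy := dep_le_pd hC y
  have hx' := pd_le (T := T) (h := h) x
  have hy' := pd_le (T := T) (h := h) y
  have hmt := T.mt_spec x y
  rw [h2]
  by_cases hlt : T.pd h x < T.mt x y
  · have h3 := pd_eq_of_lt hC hlt
    apply hf <;> omega
  · by_cases hlt' : T.pd h y < T.mt x y
    · have h3 := pd_eq_of_lt hC (x := y) (y := x) (by rw [T.mt_comm]; exact hlt')
      apply hf <;> omega
    · have : min (T.mt x y) (min (T.pd h x) (T.pd h y)) = T.mt x y := by omega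
      rw [this]
      congr 1

end RT

end Pool.Agent.K1H68.TD
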