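import Pool.Agent.K1H68.TD.Cor

/-!
# Few branches of the core
-/

set_option autoImplicit false

namespace Pool.Agent.K1H68.TD

open Finset Pool.Agent.H630R2.LR

namespace RT

variable {V : Type} (T : RT V) (h : ℕ)

/-- the designated child in the core -/
noncomputable def des (w : V) : V := by
  classical exact if hw : ∃ c, T.Cor h c ∧ T.dep c ≠ 0 ∧ T.par c = w then hw.choose else w

/-- the vertices of the core which are not designated children -/
def Nd (c : V) : Prop := T.Cor h c ∧ (T.dep c = 0 ∨ T.des h (T.par c) ≠ c)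

variable {T h}

theorem des_spec {c : V} (hc : T.Cor h c) (h0 : T.dep c ≠ 0) :
    T.Cor h (T.des h (T.par c)) ∧ T.dep (T.des h (T.par c)) ≠ 0 ∧
      T.par (T.des h (T.par c)) = T.par c := by
  classical
  have hw : ∃ c', T.Cor h c' ∧ T.dep c' ≠ 0 ∧ T.par c' = T.par c := ⟨c, hc, h0, rfl⟩
  unfold des
  rw [dif_pos hw]
  exact hw.choose_spec

theorem sub_par {c x : V} (h0 : T.dep c ≠ 0) (hx : T.Sub c x) : T.Sub (T.par c) x := by
  refine Sub.trans ?_ hx
  have h1 := T.hpar c h0
  refine ⟨by omega, ?_⟩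
  have h2 : T.par (T.anc c (T.dep (T.par c) + 1)) = T.anc c (T.dep (T.par c)) :=
    T.par_anc (by omega)
  rw [← h2, h1, T.anc_self]

/-- a descendant of a core vertex on a given level -/
theorem exists_below {c : V} (hc : T.Cor h c) {k : ℕ} (hk : T.dep c ≤ k) (hk2 : k ≤ T.dep c + h) :
    ∃ y, T.Sub c y ∧ T.dep y = k := by
  obtain ⟨y, h1, h2⟩ := hc
  have h3 : k ≤ T.dep y := by omega
  refine ⟨T.anc y k, ?_, T.dep_anc h3⟩
  exact h1.chain (T.sub_anc h3) (by rw [T.dep_anc h3]; exact hk)

/-- **There are few branches.** -/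
theorem card_nd_le [Fintype V] (f : ℕ → Bool) (t : ℕ) (ht : 1 ≤ t) (hh : h = t / 2)
    (hf : ∀ s s' : ℕ, s ≤ t → s' ≤ t → s % 2 = s' % 2 → f s = f s') (hft : f (t + 1) ≠ f (t - 1))
    (N : Finset V) (hN : ∀ c, c ∈ N → T.Nd h c) :
    N.card ≤ (comm (fun x y => f (T.dd x y))).rank + 1 := by
  classical
  -- the two witnesses
  have hx : ∀ c, ∃ x x' y : V, c ∈ N → T.dep c ≠ 0 → T.Sub c x ∧ T.Sub c y ∧
      T.Sub (T.des h (T.par c)) x' ∧ T.dep x = T.dep (T.par c) + (t + 1) / 2 ∧
      T.dep x' = T.dep (T.par c) + (t + 1) / 2 ∧ T.dep y = T.dep (T.par c) + (t / 2 + 1) ∧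
      T.dd x y = (t / 2 + 1) - (t + 1) / 2 := by
    intro c
    by_cases hc : c ∈ N ∧ T.dep c ≠ 0
    · obtain ⟨hcN, h0⟩ := hc
      have h1 := T.hpar c h0
      have h2 := des_spec (hN c hcN).1 h0
      have h3 := T.hpar _ h2.2.1
      rw [h2.2.2] at h3
      obtain ⟨y, hy, hyd⟩ := exists_below (hN c hcN).1 (k := T.dep (T.par c) + (t / 2 + 1))
        (by omega) (by omega)
      obtain ⟨x', hx', hxd'⟩ := exists_below h2.1 (k := T.dep (T.par c) + (t + 1) / 2)
        (by omega) (by omega)
      have h4 : T.dep (T.par c) + (t + 1) / 2 ≤ T.dep y := by omega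
      refine ⟨T.anc y (T.dep (T.par c) + (t + 1) / 2), x', y, fun _ _ => ⟨?_, hy, hx', ?_, hxd',
        hyd, ?_⟩⟩
      · exact hy.chain (T.sub_anc h4) (by rw [T.dep_anc h4]; omega)
      · exact T.dep_anc h4
      · have h5 := T.dd_add (T.anc y (T.dep (T.par c) + (t + 1) / 2)) y
        have h6 := (T.sub_anc h4).mt
        rw [h6, T.dep_anc h4] at h5
        omega
    · exact ⟨c, c, c, fun h1 h2 => absurd ⟨h1, h2⟩ hc⟩
  choose x x' y hxy using hx
  have hcard : (N.filter (fun c => T.dep c ≠ 0)).card ≤ (comm (fun x y => f (T.dd x y))).rank := by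
    refine card_le_rank _ _ x x' y (fun c => (T.dep (T.par c) : ℤ)) ?_ ?_
    · intro c hc
      rw [Finset.mem_filter] at hc
      obtain ⟨hcN, h0⟩ := hc
      obtain ⟨a1, a2, a3, a4, a5, a6, a7⟩ := hxy c hcN h0
      have h1 := T.hpar c h0
      have h2 := des_spec (hN c hcN).1 h0
      have h3 := T.hpar _ h2.2.1
      rw [h2.2.2] at h3
      have hne : T.des h (T.par c) ≠ c := (hN c hcN).2.resolve_left h0
      have hnot : ¬ T.Sub c (x' c) := by
        intro h4
        have e : T.dep (T.des h (T.par c)) = T.dep c := by omega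
        have q := a3.2
        rw [e, h4.2] at q
        exact hne q.symm
      have h4 : T.mt (y c) (x' c) = T.dep (T.par c) := by
        rw [T.mt_of_not_sub h0 a2 hnot]
        apply Sub.mt
        have := sub_par h2.2.1 a3
        rwa [h2.2.2] at this
      have h5 := T.dd_add (x' c) (y c)
      rw [T.mt_comm (x' c), h4] at h5
      have h6 : T.dd (x' c) (y c) = t + 1 := by omega
      show f (T.dd (x c) (y c)) ≠ f (T.dd (x' c) (y c))
      rw [h6, a7]
      rw [hf (t / 2 + 1 - (t + 1) / 2) (t - 1) (by omega) (by omega) (by omega)]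
      exact hft.symm
    · intro c hc c2 hc2 hne2 hρ
      rw [Finset.mem_filter] at hc hc2
      obtain ⟨hcN, h0⟩ := hc
      obtain ⟨hcN2, h02⟩ := hc2
      obtain ⟨a1, a2, a3, a4, a5, a6, a7⟩ := hxy c hcN h0
      obtain ⟨b1, b2, b3, b4, b5, b6, b7⟩ := hxy c2 hcN2 h02
      have h1 := T.hpar c h0
      have h12 := T.hpar c2 h02
      have h2 := des_spec (hN c hcN).1 h0
      have h3 := T.hpar _ h2.2.1
      rw [h2.2.2] at h3
      have hne : T.des h (T.par c2) ≠ c2 := (hN c2 hcN2).2.resolve_left h02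
      have hρ' : T.dep (T.par c2) ≤ T.dep (T.par c) := by exact_mod_cast hρ
      have hxw : T.Sub (T.par c) (x c) := sub_par h0 a1
      have hxw' : T.Sub (T.par c) (x' c) := by
        have := sub_par h2.2.1 a3
        rwa [h2.2.2] at this
      show f (T.dd (x c) (y c2)) = f (T.dd (x' c) (y c2))
      by_cases hyw : T.Sub (T.par c) (y c2)
      · -- the column is below `w`
        have hyw2 : T.Sub (T.par c2) (y c2) := sub_par h02 b2
        rcases hρ'.eq_or_lt with heq | hlt
        · -- the same parent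
          have hpp : T.par c2 = T.par c := by
            rw [← hyw.2, ← hyw2.2, heq]
          have n1 : ¬ T.Sub c (y c2) := by
            intro h4
            have e : T.dep c2 = T.dep c := by omega
            have q := b2.2
            rw [e, h4.2] at q
            exact hne2 q.symm
          have n2 : ¬ T.Sub (T.des h (T.par c)) (y c2) := by
            intro h4
            have e : T.dep (T.des h (T.par c)) = T.dep c2 := by omega
            have q := h4.2
            rw [e, b2.2] at q
            rw [hpp] at hne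
            exact hne q.symm
          have m1 : T.mt (x c) (y c2) = T.mt (T.par c) (y c2) := T.mt_of_not_sub h0 a1 n1
          have m2 : T.mt (x' c) (y c2) = T.mt (T.par c) (y c2) := by
            have := T.mt_of_not_sub h2.2.1 a3 n2
            rwa [h2.2.2] at this
          have e1 : T.dd (x c) (y c2) = T.dd (x' c) (y c2) := by
            unfold dd
            rw [m1, m2, a4, a5]
          rw [e1]
        · -- the column is not deep
          have k1 : T.dep (T.par c) ≤ T.mt (x c) (y c2) := by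
            rw [T.le_mt]
            exact ⟨hxw.1, hyw.1, by rw [hxw.2, hyw.2]⟩
          have k2 : T.dep (T.par c) ≤ T.mt (x' c) (y c2) := by
            rw [T.le_mt]
            exact ⟨hxw'.1, hyw.1, by rw [hxw'.2, hyw.2]⟩
          have d1 := T.dd_add (x c) (y c2)
          have d2 := T.dd_add (x' c) (y c2)
          apply hf <;> omega
      · -- the column is not below `w`
        have hw0 : T.dep (T.par c) ≠ 0 := by
          intro h4
          apply hyw
          refine ⟨by omega, ?_⟩
          rw [h4, anc_zero]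
          exact ((T.hroot _).1 h4).symm
        have m1 : T.mt (x c) (y c2) = T.mt (T.par (T.par c)) (y c2) :=
          T.mt_of_not_sub hw0 hxw hyw
        have m2 : T.mt (x' c) (y c2) = T.mt (T.par (T.par c)) (y c2) :=
          T.mt_of_not_sub hw0 hxw' hyw
        have e1 : T.dd (x c) (y c2) = T.dd (x' c) (y c2) := by
          unfold dd
          rw [m1, m2, a4, a5]
        rw [e1]
  have hroot : (N.filter (fun c => ¬ T.dep c ≠ 0)).card ≤ 1 := by
    rw [Finset.card_le_one]
    intro a ha b hb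
    rw [Finset.mem_filter, not_not] at ha hb
    rw [(T.hroot a).1 ha.2, (T.hroot b).1 hb.2]
  have := Finset.card_filter_add_card_filter_not (s := N) (fun c => T.dep c ≠ 0)
  omega

/-! ### labels -/

variable (T h) in
/-- the depth of the top of the branch of `v` -/
noncomputable def tpd (v : V) : ℕ := by
  classical exact Nat.findGreatest (fun k => T.Nd h (T.anc v k)) (T.dep v)

theorem nd_root (hC : T.Cor h T.root) : T.Nd h T.root :=
  ⟨hC, Or.inl ((T.hroot _).2 rfl)⟩

theorem tpd_spec (hC : T.Cor h T.root) (v : V) : T.tpd h v ≤ T.dep v ∧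
    T.Nd h (T.anc v (T.tpd h v)) ∧ ∀ k, T.tpd h v < k → k ≤ T.dep v → ¬ T.Nd h (T.anc v k) := by
  classical
  refine ⟨Nat.findGreatest_le _, ?_, fun k h1 h2 => Nat.findGreatest_is_greatest h1 h2⟩
  exact Nat.findGreatest_spec (P := fun k => T.Nd h (T.anc v k)) (Nat.zero_le _)
    (by rw [anc_zero]; exact nd_root hC)

/-- the branches are chains -/
theorem chain (hC : T.Cor h T.root) {v v' : V} (hv : T.Cor h v) (hv' : T.Cor h v')
    (htop : T.anc v (T.tpd h v) = T.anc v' (T.tpd h v')) (hd : T.dep v ≤ T.dep v') :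
    T.anc v' (T.dep v) = v := by
  obtain ⟨a1, a2, a3⟩ := tpd_spec hC v
  obtain ⟨b1, b2, b3⟩ := tpd_spec hC v'
  have hde : T.tpd h v = T.tpd h v' := by
    rw [← T.dep_anc a1, htop, T.dep_anc b1]
  have key : ∀ j, T.tpd h v + j ≤ T.dep v →
      T.anc v (T.tpd h v + j) = T.anc v' (T.tpd h v + j) := by
    intro j
    induction j with
    | zero =>
      intro _
      rw [Nat.add_zero, htop, hde]
    | succ j ih =>
      intro hj
      have h1 := ih (by omega)
      have c1 : T.Cor h (T.anc v (T.tpd h v + (j + 1))) := hv.up (T.sub_anc hj)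
      have c2 : T.Cor h (T.anc v' (T.tpd h v + (j + 1))) := hv'.up (T.sub_anc (by omega))
      have n1 := a3 (T.tpd h v + (j + 1)) (by omega) hj
      have n2 := b3 (T.tpd h v + (j + 1)) (by omega) (by omega)
      have p1 : T.par (T.anc v (T.tpd h v + (j + 1))) = T.anc v (T.tpd h v + j) :=
        T.par_anc (k := T.tpd h v + j) (by omega)
      have p2 : T.par (T.anc v' (T.tpd h v + (j + 1))) = T.anc v' (T.tpd h v + j) :=
        T.par_anc (k := T.tpd h v + j) (by omega)
      unfold Nd at n1 n2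
      push Not at n1 n2
      have q1 := (n1 c1).2
      have q2 := (n2 c2).2
      rw [p1] at q1
      rw [p2, ← h1] at q2
      rw [← q1, ← q2]
  have h1 := key (T.dep v - T.tpd h v) (by omega)
  rw [show T.tpd h v + (T.dep v - T.tpd h v) = T.dep v by omega, T.anc_self] at h1
  exact h1.symm

/-- **Labels.** -/
theorem exists_labels [Fintype V] (hC : T.Cor h T.root) (f : ℕ → Bool) (t : ℕ) (ht : 1 ≤ t)
    (hh : h = t / 2)
    (hf : ∀ s s' : ℕ, s ≤ t → s' ≤ t → s % 2 = s' % 2 → f s = f s')
    (hft : f (t + 1) ≠ f (t - 1)) :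
    ∃ (N : Finset V) (lab bot : V → V), N.card ≤ (comm (fun x y => f (T.dd x y))).rank + 1 ∧
      (∀ x, lab x ∈ N) ∧ ∀ x, T.Cor h (bot (lab x)) ∧ T.pd h x ≤ T.dep (bot (lab x)) ∧
        T.pj h x = T.anc (bot (lab x)) (T.pd h x) := by
  classical
  have hb : ∀ c, ∃ b, ∀ v, T.Cor h v → T.anc v (T.tpd h v) = c → T.Cor h b ∧ T.dep v ≤ T.dep b ∧
      T.anc b (T.dep v) = v := by
    intro c
    by_cases hc : ∃ v, T.Cor h v ∧ T.anc v (T.tpd h v) = c
    · obtain ⟨b, hb, hbm⟩ := Set.exists_max_image {v | T.Cor h v ∧ T.anc v (T.tpd h v) = c} T.dep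
        (Set.toFinite _) hc
      refine ⟨b, fun v hv hvc => ⟨hb.1, hbm v ⟨hv, hvc⟩, ?_⟩⟩
      exact chain hC hv hb.1 (hvc.trans hb.2.symm) (hbm v ⟨hv, hvc⟩)
    · exact ⟨c, fun v hv hvc => absurd ⟨v, hv, hvc⟩ hc⟩
  choose bot hbot using hb
  have hpc : ∀ x, T.Cor h (T.pj h x) := fun x => cor_pd hC x
  refine ⟨Finset.univ.filter (fun c => T.Nd h c),
    fun x => T.anc (T.pj h x) (T.tpd h (T.pj h x)), bot, ?_, ?_, ?_⟩
  · exact card_nd_le f t ht hh hf hft _ (fun c hc => (Finset.mem_filter.1 hc).2)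
  · intro x
    simp only [Finset.mem_filter, Finset.mem_univ, true_and]
    exact (tpd_spec hC _).2.1
  · intro x
    have h1 := hbot _ (T.pj h x) (hpc x) rfl
    rw [dep_pj] at h1
    exact ⟨h1.1, h1.2.1, h1.2.2.symm⟩

end RT

end Pool.Agent.K1H68.TD
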