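import Mathlib

/-!
# Rooted trees given by a parent function

`dep` is the depth, `par` the parent. `anc v k` is the ancestor of `v` at depth `k`, `mt x y` the depth
of the last common ancestor.
-/

set_option autoImplicit false

namespace Pool.Agent.K1H68.TD

/-- a rooted tree -/
structure RT (V : Type) where
  dep : V → ℕ
  par : V → V
  root : V
  hroot : ∀ v, dep v = 0 ↔ v = root
  hpar : ∀ v, dep v ≠ 0 → dep (par v) + 1 = dep v

namespace RT

variable {V : Type} (T : RT V)

/-- the ancestor of `v` at depth `k` (`v` itself if `k` is at least the depth of `v`) -/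
def anc (v : V) (k : ℕ) : V := T.par^[T.dep v - k] v

theorem dep_iter (v : V) (j : ℕ) (h : j ≤ T.dep v) : T.dep (T.par^[j] v) = T.dep v - j := by
  induction j with
  | zero => simp
  | succ j ih =>
    rw [Function.iterate_succ_apply']
    have h1 := ih (by omega)
    have h2 := T.hpar (T.par^[j] v) (by omega)
    omega

theorem dep_anc {v : V} {k : ℕ} (h : k ≤ T.dep v) : T.dep (T.anc v k) = k := by
  unfold anc
  rw [T.dep_iter v _ (by omega)]
  omega

theorem anc_self (v : V) : T.anc v (T.dep v) = v := by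
  unfold anc
  rw [Nat.sub_self]
  rfl

theorem anc_of_ge {v : V} {k : ℕ} (h : T.dep v ≤ k) : T.anc v k = v := by
  unfold anc
  rw [Nat.sub_eq_zero_of_le h]
  rfl

theorem anc_anc {v : V} {k l : ℕ} (hkl : l ≤ k) (hk : k ≤ T.dep v) :
    T.anc (T.anc v k) l = T.anc v l := by
  conv_lhs => unfold anc
  rw [show T.dep (T.par^[T.dep v - k] v) = k from T.dep_anc hk]
  rw [← Function.iterate_add_apply]
  unfold anc
  congr 1
  omega

theorem anc_zero (v : V) : T.anc v 0 = T.root := by
  rw [← T.hroot]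
  exact T.dep_anc (Nat.zero_le _)

theorem par_anc {v : V} {k : ℕ} (hk : k + 1 ≤ T.dep v) : T.par (T.anc v (k + 1)) = T.anc v k := by
  unfold anc
  rw [← Function.iterate_succ_apply' T.par]
  congr 1
  omega

/-- the depth of the last common ancestor -/
noncomputable def mt (x y : V) : ℕ := by
  classical exact Nat.findGreatest (fun k => T.anc x k = T.anc y k) (min (T.dep x) (T.dep y))

theorem mt_spec (x y : V) : T.mt x y ≤ T.dep x ∧ T.mt x y ≤ T.dep y ∧
    T.anc x (T.mt x y) = T.anc y (T.mt x y) := by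
  classical
  unfold mt
  have h1 := Nat.findGreatest_le (P := fun k => T.anc x k = T.anc y k) (min (T.dep x) (T.dep y))
  have h2 := Nat.findGreatest_spec (P := fun k => T.anc x k = T.anc y k)
    (Nat.zero_le (min (T.dep x) (T.dep y))) (by rw [anc_zero, anc_zero])
  exact ⟨h1.trans (min_le_left _ _), h1.trans (min_le_right _ _), h2⟩

theorem le_mt {x y : V} {k : ℕ} : k ≤ T.mt x y ↔ k ≤ T.dep x ∧ k ≤ T.dep y ∧
    T.anc x k = T.anc y k := by
  classical
  constructor
  · intro h
    obtain ⟨h1, h2, h3⟩ := T.mt_spec x y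
    refine ⟨h.trans h1, h.trans h2, ?_⟩
    rw [← T.anc_anc h h1, h3, T.anc_anc h h2]
  · rintro ⟨h1, h2, h3⟩
    exact Nat.le_findGreatest (le_min h1 h2) h3

theorem mt_comm (x y : V) : T.mt x y = T.mt y x := by
  apply le_antisymm
  · have := T.mt_spec x y
    exact T.le_mt.2 ⟨this.2.1, this.1, this.2.2.symm⟩
  · have := T.mt_spec y x
    exact T.le_mt.2 ⟨this.2.1, this.1, this.2.2.symm⟩

theorem mt_self (x : V) : T.mt x x = T.dep x :=
  le_antisymm (T.mt_spec x x).1 (T.le_mt.2 ⟨le_rfl, le_rfl, rfl⟩)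

/-- last common ancestors of ancestors -/
theorem mt_anc {x y : V} {i j : ℕ} (hi : i ≤ T.dep x) (hj : j ≤ T.dep y) :
    T.mt (T.anc x i) (T.anc y j) = min (T.mt x y) (min i j) := by
  apply le_antisymm
  · obtain ⟨h1, h2, h3⟩ := T.mt_spec (T.anc x i) (T.anc y j)
    rw [T.dep_anc hi] at h1
    rw [T.dep_anc hj] at h2
    rw [T.anc_anc h1 hi, T.anc_anc h2 hj] at h3
    refine le_min (T.le_mt.2 ⟨h1.trans hi, h2.trans hj, h3⟩) (le_min h1 h2)
  · rw [T.le_mt, T.dep_anc hi, T.dep_anc hj]
    have h1 : min (T.mt x y) (min i j) ≤ i := (min_le_right _ _).trans (min_le_left _ _)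
    have h2 : min (T.mt x y) (min i j) ≤ j := (min_le_right _ _).trans (min_le_right _ _)
    refine ⟨h1, h2, ?_⟩
    rw [T.anc_anc h1 hi, T.anc_anc h2 hj]
    exact (T.le_mt.1 (min_le_left _ _)).2.2

theorem mt_anc_left {x y : V} {i : ℕ} (hi : i ≤ T.dep x) :
    T.mt (T.anc x i) y = min (T.mt x y) i := by
  have h := T.mt_anc (x := x) (y := y) hi (le_refl (T.dep y))
  rw [T.anc_self] at h
  rw [h]
  have := (T.mt_spec x y).2.1
  omega

/-- the distance -/
noncomputable def dd (x y : V) : ℕ := T.dep x + T.dep y - 2 * T.mt x y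

theorem dd_add (x y : V) : T.dd x y + 2 * T.mt x y = T.dep x + T.dep y := by
  unfold dd
  have := T.mt_spec x y
  omega

theorem dd_comm (x y : V) : T.dd x y = T.dd y x := by
  unfold dd
  rw [T.mt_comm x y, add_comm]

theorem dd_self (x : V) : T.dd x x = 0 := by
  unfold dd
  rw [T.mt_self]
  omega

/-- `y` lies in the subtree of `w` -/
def Sub (w y : V) : Prop := T.dep w ≤ T.dep y ∧ T.anc y (T.dep w) = w

theorem sub_anc {y : V} {k : ℕ} (hk : k ≤ T.dep y) : T.Sub (T.anc y k) y := by
  refine ⟨?_, ?_⟩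
  · rw [T.dep_anc hk]; exact hk
  · rw [T.dep_anc hk]

theorem sub_refl (y : V) : T.Sub y y := ⟨le_rfl, T.anc_self y⟩

theorem Sub.mt {T : RT V} {w y : V} (h : T.Sub w y) : T.mt w y = T.dep w := by
  apply le_antisymm (T.mt_spec w y).1
  rw [T.le_mt]
  exact ⟨le_rfl, h.1, by rw [T.anc_self, h.2]⟩

theorem Sub.trans {T : RT V} {w y z : V} (h : T.Sub w y) (h2 : T.Sub y z) : T.Sub w z := by
  refine ⟨h.1.trans h2.1, ?_⟩
  rw [← T.anc_anc h.1 h2.1, h2.2, h.2]

/-- two ancestors of the same vertex -/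
theorem Sub.chain {T : RT V} {u w y : V} (h : T.Sub u y) (h2 : T.Sub w y) (hd : T.dep u ≤ T.dep w) :
    T.Sub u w := by
  refine ⟨hd, ?_⟩
  rw [← h2.2, T.anc_anc hd h2.1, h.2]

/-- a vertex outside of the subtree of `c` sees all the vertices of this subtree through the parent -/
theorem mt_of_not_sub {c y x : V} (hc : T.dep c ≠ 0) (hx : T.Sub c x) (hy : ¬ T.Sub c y) :
    T.mt x y = T.mt (T.par c) y := by
  have h1 := T.hpar c hc
  have hcx : T.anc x (T.dep c - 1) = T.par c := by
    have h2 : T.par (T.anc x (T.dep c - 1 + 1)) = T.anc x (T.dep c - 1) :=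
      T.par_anc (by have := hx.1; omega)
    rw [show T.dep c - 1 + 1 = T.dep c by omega, hx.2] at h2
    exact h2.symm
  have h3 : T.mt x y ≤ T.dep c - 1 := by
    by_contra hlt
    apply hy
    have h4 : T.dep c ≤ T.mt x y := by omega
    rw [T.le_mt] at h4
    exact ⟨h4.2.1, by rw [← h4.2.2, hx.2]⟩
  have h5 := T.mt_anc_left (x := x) (y := y) (i := T.dep c - 1) (by have := hx.1; omega)
  rw [hcx] at h5
  omega

end RT

end Pool.Agent.K1H68.TD
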